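import Pool.Agent.H51.MFQ.S1

/-!
# Board mfq, row TRU: truncation of local invariants
-/

set_option autoImplicit false

open Module

namespace Pool.MFQ

namespace TRUaux

/-- If `φ` is a linearly independent family of functionals killing `N`, of the right size, then
the common kernel is contained in `N`. -/
theorem mem_of_kill {V ι : Type} [AddCommGroup V] [Module ℂ V] [FiniteDimensional ℂ V]
    [Fintype ι] (φ : ι → Dual ℂ V) (N : Submodule ℂ V) (hli : LinearIndependent ℂ φ)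
    (hN : ∀ j, ∀ v ∈ N, φ j v = 0) (hc : Fintype.card ι + finrank ℂ N = finrank ℂ V) (v : V)
    (hv : ∀ j, φ j v = 0) : v ∈ N := by
  have h1 : finrank ℂ (Submodule.span ℂ (Set.range φ)) = Fintype.card ι :=
    finrank_span_eq_card hli
  have h2 := Subspace.finrank_add_finrank_dualCoannihilator_eq (Submodule.span ℂ (Set.range φ))
  have hle : N ≤ (Submodule.span ℂ (Set.range φ)).dualCoannihilator := by
    intro w hw
    rw [Submodule.mem_dualCoannihilator]
    intro ψ hψ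
    refine Submodule.span_induction (p := fun ψ _ => ψ w = 0) ?_ ?_ ?_ ?_ hψ
    · rintro _ ⟨j, rfl⟩
      exact hN j w hw
    · rfl
    · intro x y _ _ hx hy
      rw [LinearMap.add_apply, hx, hy, add_zero]
    · intro c x _ hx
      rw [LinearMap.smul_apply, hx, smul_zero]
  have heq : N = (Submodule.span ℂ (Set.range φ)).dualCoannihilator := by
    apply Submodule.eq_of_le_of_finrank_le hle
    omega
  rw [heq, Submodule.mem_dualCoannihilator]
  intro ψ hψ
  refine Submodule.span_induction (p := fun ψ _ => ψ v = 0) ?_ ?_ ?_ ?_ hψ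
  · rintro _ ⟨j, rfl⟩
    exact hv j
  · rfl
  · intro x y _ _ hx hy
    rw [LinearMap.add_apply, hx, hy, add_zero]
  · intro c x _ hx
    rw [LinearMap.smul_apply, hx, smul_zero]

/-- A maximal independent subfamily. -/
theorem sub_family {V : Type} [AddCommGroup V] [Module ℂ V] [FiniteDimensional ℂ V] {r : ℕ}
    (φ : Fin r → Dual ℂ V) (N : Submodule ℂ V) (hN : ∀ v, v ∈ N ↔ ∀ i, φ i v = 0) :
    ∃ (q : ℕ) (s : Fin q → Fin r), LinearIndependent ℂ (fun j => φ (s j)) ∧
      q + finrank ℂ N = finrank ℂ V := by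
  obtain ⟨J, s, hinj, hspan, hli⟩ := exists_linearIndependent' ℂ φ
  have _ : Finite J := Finite.of_injective s hinj
  obtain ⟨q, ⟨e⟩⟩ := Finite.exists_equiv_fin J
  refine ⟨q, fun j => s (e.symm j), ?_, ?_⟩
  · exact hli.comp e.symm e.symm.injective
  · have _ : Fintype J := Fintype.ofEquiv (Fin q) e.symm
    have h1 : finrank ℂ (Submodule.span ℂ (Set.range (φ ∘ s))) = Fintype.card J :=
      finrank_span_eq_card hli
    have hcard : Fintype.card J = q := by
      rw [Fintype.card_congr e, Fintype.card_fin]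
    have h2 := Subspace.finrank_add_finrank_dualCoannihilator_eq
      (Submodule.span ℂ (Set.range (φ ∘ s)))
    have hNe : N = (Submodule.span ℂ (Set.range (φ ∘ s))).dualCoannihilator := by
      ext v
      rw [hN, Submodule.mem_dualCoannihilator, hspan]
      constructor
      · intro hv ψ hψ
        refine Submodule.span_induction (p := fun ψ _ => ψ v = 0) ?_ ?_ ?_ ?_ hψ
        · rintro _ ⟨j, rfl⟩
          exact hv j
        · rfl
        · intro x y _ _ hx hy
          rw [LinearMap.add_apply, hx, hy, add_zero]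
        · intro c x _ hx
          rw [LinearMap.smul_apply, hx, smul_zero]
      · intro hv i
        exact hv _ (Submodule.subset_span ⟨i, rfl⟩)
    rw [hNe]
    omega

/-- A functional which kills the `A i ξ` kills `NN A ξ`. -/
theorem kill_NN {E κ : Type} [NormedAddCommGroup E] [NormedSpace ℂ E] (A : κ → (E →L[ℂ] E))
    (ξ : E) (L : E →L[ℂ] ℂ) (h : ∀ i, L (A i ξ) = 0) : ∀ w ∈ NN A ξ, L w = 0 := by
  intro w hw
  refine Submodule.span_induction (p := fun w _ => L w = 0) ?_ ?_ ?_ ?_ hw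
  · rintro _ ⟨i, rfl⟩
    exact h i
  · exact map_zero L
  · intro x y _ _ hx hy
    rw [map_add, hx, hy, add_zero]
  · intro c x _ hx
    rw [map_smul, hx, smul_zero]

/-- The truncation of `f` along the section `K`. -/
noncomputable def trunc {E : Type} [NormedAddCommGroup E] [NormedSpace ℂ E] (f : E → ℂ)
    (K : E → E) (ξ : E) : ℂ := f (K ξ) + fderiv ℂ f (K ξ) (ξ - K ξ)

theorem trunc_hasFDerivAt {E : Type} [NormedAddCommGroup E] [NormedSpace ℂ E]
    [FiniteDimensional ℂ E] (f : E → ℂ) (K : E → E) (ξ : E)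
    (hf : AnalyticAt ℂ f (K ξ)) (hK : AnalyticAt ℂ K ξ) (v : E) :
    fderiv ℂ (trunc f K) ξ v = fderiv ℂ f (K ξ) v +
      fderiv ℂ (fderiv ℂ f) (K ξ) (fderiv ℂ K ξ v) (ξ - K ξ) := by
  have hK' : HasFDerivAt K (fderiv ℂ K ξ) ξ := hK.differentiableAt.hasFDerivAt
  have hf' : HasFDerivAt f (fderiv ℂ f (K ξ)) (K ξ) := hf.differentiableAt.hasFDerivAt
  have hdf : HasFDerivAt (fderiv ℂ f) (fderiv ℂ (fderiv ℂ f) (K ξ)) (K ξ) :=
    hf.fderiv.differentiableAt.hasFDerivAt
  have h1 : HasFDerivAt (fun x => f (K x)) ((fderiv ℂ f (K ξ)).comp (fderiv ℂ K ξ)) ξ :=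
    hf'.comp ξ hK'
  have h2 : HasFDerivAt (fun x => fderiv ℂ f (K x))
      ((fderiv ℂ (fderiv ℂ f) (K ξ)).comp (fderiv ℂ K ξ)) ξ := hdf.comp ξ hK'
  have h3 : HasFDerivAt (fun x => x - K x) (ContinuousLinearMap.id ℂ E - fderiv ℂ K ξ) ξ :=
    (hasFDerivAt_id ξ).sub hK'
  have h4 := h1.add (h2.clm_apply h3)
  have h5 : fderiv ℂ (trunc f K) ξ = _ := h4.fderiv
  rw [h5]
  simp only [add_apply, ContinuousLinearMap.comp_apply,
    ContinuousLinearMap.flip_apply, sub_apply,
    ContinuousLinearMap.id_apply, map_sub]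
  ring

theorem trunc_analytic {E : Type} [NormedAddCommGroup E] [NormedSpace ℂ E]
    [FiniteDimensional ℂ E] (f : E → ℂ) (K : E → E) (a : E)
    (hf : AnalyticAt ℂ f (K a)) (hK : AnalyticAt ℂ K a) : AnalyticAt ℂ (trunc f K) a := by
  have h1 : AnalyticAt ℂ (fun x => f (K x)) a := hf.comp hK
  have h2 : AnalyticAt ℂ (fun x => fderiv ℂ f (K x)) a := hf.fderiv.comp hK
  have h3 : AnalyticAt ℂ (fun x => x - K x) a := analyticAt_id.sub hK
  have h4 : AnalyticAt ℂ (fun x => (ContinuousLinearMap.id ℂ (E →L[ℂ] ℂ))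
      (fderiv ℂ f (K x)) (x - K x)) a :=
    AnalyticAt.comp₂ (h := fun y : (E →L[ℂ] ℂ) × E =>
      (ContinuousLinearMap.id ℂ (E →L[ℂ] ℂ)) y.1 y.2) (f := fun x => fderiv ℂ f (K x))
      (g := fun x => x - K x) ((ContinuousLinearMap.id ℂ (E →L[ℂ] ℂ)).analyticAt_bilinear _) h2 h3
  exact h1.add h4

/-- Differentiation of the invariance. -/
theorem inv_second {E : Type} [NormedAddCommGroup E] [NormedSpace ℂ E]
    [FiniteDimensional ℂ E] (f : E → ℂ) (z : E) (B : E →L[ℂ] E) (hf : AnalyticAt ℂ f z)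
    (h : ∀ᶠ x in nhds z, fderiv ℂ f x (B x) = 0) (η : E) :
    fderiv ℂ f z (B η) + fderiv ℂ (fderiv ℂ f) z η (B z) = 0 := by
  have hdf : HasFDerivAt (fderiv ℂ f) (fderiv ℂ (fderiv ℂ f) z) z :=
    hf.fderiv.differentiableAt.hasFDerivAt
  have h2 := hdf.clm_apply (B.hasFDerivAt (x := z))
  have h3 : HasFDerivAt (fun x => fderiv ℂ f x (B x)) (0 : E →L[ℂ] ℂ) z :=
    (hasFDerivAt_const (0 : ℂ) z).congr_of_eventuallyEq h
  have h4 := h2.unique h3
  have h5 := congrArg (fun L : E →L[ℂ] ℂ => L η) h4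
  simpa only [add_apply, ContinuousLinearMap.comp_apply,
    ContinuousLinearMap.flip_apply, zero_apply] using h5

/-- The second derivative along a direction along which `δ` stays in the kernel. -/
theorem second_zero {E : Type} [NormedAddCommGroup E] [NormedSpace ℂ E]
    [FiniteDimensional ℂ E] (f : E → ℂ) (z η δ : E) (hf : AnalyticAt ℂ f z)
    (h : ∀ᶠ s : ℂ in nhds 0, fderiv ℂ f (z + s • η) δ = 0) :
    fderiv ℂ (fderiv ℂ f) z η δ = 0 := by
  have hdf : HasFDerivAt (fderiv ℂ f) (fderiv ℂ (fderiv ℂ f) z) z :=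
    hf.fderiv.differentiableAt.hasFDerivAt
  have hz : z + (0 : ℂ) • η = z := by rw [zero_smul, add_zero]
  have hl : HasDerivAt (fun s : ℂ => z + s • η) ((1 : ℂ) • η) 0 :=
    ((hasDerivAt_id (0 : ℂ)).smul_const η).const_add z
  have hdf' : HasFDerivAt (fderiv ℂ f) (fderiv ℂ (fderiv ℂ f) z) (z + (0 : ℂ) • η) := by
    rw [hz]
    exact hdf
  have h2 : HasDerivAt (fun s : ℂ => fderiv ℂ f (z + s • η))
      (fderiv ℂ (fderiv ℂ f) z ((1 : ℂ) • η)) 0 :=
    hdf'.comp_hasDerivAt (0 : ℂ) hl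
  have h3 : HasDerivAt (fun s : ℂ => fderiv ℂ f (z + s • η) δ)
      (fderiv ℂ (fderiv ℂ f) z ((1 : ℂ) • η) δ) 0 := by
    have := h2.clm_apply (hasDerivAt_const (0 : ℂ) δ)
    simpa using this
  have h4 : HasDerivAt (fun s : ℂ => fderiv ℂ f (z + s • η) δ) 0 0 :=
    (hasDerivAt_const (0 : ℂ) (0 : ℂ)).congr_of_eventuallyEq h
  have h5 := h3.unique h4
  rwa [one_smul] at h5

theorem li_coe {W ι : Type} [NormedAddCommGroup W] [NormedSpace ℂ W] (L : ι → (W →L[ℂ] ℂ)) :
    LinearIndependent ℂ L ↔ LinearIndependent ℂ (fun j => (L j : W →ₗ[ℂ] ℂ)) := by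
  have hker : LinearMap.ker (ContinuousLinearMap.coeLM (R := ℂ) (M := W) (N₃ := ℂ) ℂ) = ⊥ := by
    rw [LinearMap.ker_eq_bot]
    exact ContinuousLinearMap.coe_injective
  exact (LinearMap.linearIndependent_iff (ContinuousLinearMap.coeLM (R := ℂ) (M := W)
    (N₃ := ℂ) ℂ) hker).symm

theorem eventually_li {X W : Type} [TopologicalSpace X] [NormedAddCommGroup W] [NormedSpace ℂ W]
    {q : ℕ} (g : X → Fin q → W) (a : X) (hg : ContinuousAt g a)
    (hli : LinearIndependent ℂ (g a)) : ∀ᶠ z in nhds a, LinearIndependent ℂ (g z) :=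
  hg (isOpen_setOfPred_linearIndependent.mem_nhds hli)

/-- The truncation of an invariant is an invariant. -/
theorem trunc_inv {E κ : Type} [NormedAddCommGroup E] [NormedSpace ℂ E]
    [FiniteDimensional ℂ E] (A : κ → (E →L[ℂ] E)) (a : E) (k q : ℕ) (T : Submodule ℂ E)
    (F : Fin q → E → ℂ) (K : E → E) (f : E → ℂ)
    (hF : ∀ j, InvAt A a (F j))
    (hli : LinearIndependent ℂ
      (fun j => ((fderiv ℂ (F j) a : E →ₗ[ℂ] ℂ) ∘ₗ T.subtype : T →ₗ[ℂ] ℂ)))
    (hqk : q + k = finrank ℂ T)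
    (hAT : ∀ i, ∀ t ∈ T, A i t ∈ T)
    (hk : ∀ᶠ ξ in nhds a, finrank ℂ (NN A ξ ⊓ T : Submodule ℂ E) = k)
    (hU : ∃ U ∈ nhds a, ∀ ξ ∈ U, ∀ ξ' ∈ U, ξ - ξ' ∈ T → NN A ξ ⊓ T = NN A ξ' ⊓ T)
    (hK : AnalyticAt ℂ K a) (hKa : K a = a) (hKT : ∀ ξ, K ξ - ξ ∈ T)
    (hFK : ∀ᶠ ξ in nhds a, ∀ j, F j (K ξ) = F j a) (hf : InvAt A a f) :
    ∀ᶠ ξ in nhds a, ∀ i, fderiv ℂ (trunc f K) ξ (A i ξ) = 0 := by
  obtain ⟨U, hUa, hUT⟩ := hU
  have hKc : Filter.Tendsto K (nhds a) (nhds a) := by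
    have := hK.continuousAt
    rwa [ContinuousAt, hKa] at this
  -- the good neighbourhood
  have hli' : ∀ᶠ z in nhds a, LinearIndependent ℂ
      (fun j => ((fderiv ℂ (F j) z : E →ₗ[ℂ] ℂ) ∘ₗ T.subtype : T →ₗ[ℂ] ℂ)) := by
    have hcont : ContinuousAt (fun z => fun j : Fin q =>
        (fderiv ℂ (F j) z).comp T.subtypeL) a := by
      rw [continuousAt_pi]
      intro j
      have h1 : ContinuousAt (fderiv ℂ (F j)) a := (hF j).1.fderiv.continuousAt
      exact ((ContinuousLinearMap.compL ℂ T E ℂ).flip T.subtypeL).continuous.continuousAt.comp h1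
    have h0 : LinearIndependent ℂ (fun j : Fin q => (fderiv ℂ (F j) a).comp T.subtypeL) :=
      (li_coe _).2 hli
    have h1 := eventually_li (fun z => fun j : Fin q =>
        (fderiv ℂ (F j) z).comp T.subtypeL) a hcont h0
    filter_upwards [h1] with z hz
    exact (li_coe (fun j : Fin q => (fderiv ℂ (F j) z).comp T.subtypeL)).1 hz
  have hgood : ∀ᶠ z in nhds a, AnalyticAt ℂ f z ∧ (∀ᶠ y in nhds z, ∀ i, fderiv ℂ f y (A i y) = 0)
      ∧ (∀ j, ∀ i, fderiv ℂ (F j) z (A i z) = 0) ∧ (∀ j, AnalyticAt ℂ (F j) z) ∧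
      finrank ℂ (NN A z ⊓ T : Submodule ℂ E) = k ∧ (∀ᶠ y in nhds z, y ∈ U) ∧
      LinearIndependent ℂ
        (fun j => ((fderiv ℂ (F j) z : E →ₗ[ℂ] ℂ) ∘ₗ T.subtype : T →ₗ[ℂ] ℂ)) := by
    have e1 := hf.1.eventually_analyticAt
    have e2 := eventually_eventually_nhds.2 hf.2
    have e3 : ∀ᶠ z in nhds a, ∀ j, ∀ i, fderiv ℂ (F j) z (A i z) = 0 :=
      Filter.eventually_all.2 fun j => (hF j).2
    have e4 : ∀ᶠ z in nhds a, ∀ j, AnalyticAt ℂ (F j) z :=
      Filter.eventually_all.2 fun j => (hF j).1.eventually_analyticAt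
    have e5 := eventually_eventually_nhds.2 (Filter.eventually_mem_set.2 hUa)
    filter_upwards [e1, e2, e3, e4, e5, hk, hli'] with z h1 h2 h3 h4 h5 h6 h7
    exact ⟨h1, h2, h3, h4, h6, h5, h7⟩
  have hgK := hKc.eventually hgood
  have hKan := hK.eventually_analyticAt
  have hFK' := eventually_eventually_nhds.2 hFK
  filter_upwards [hgK, hKan, hFK'] with ξ hz hKξ hFKξ
  obtain ⟨hfz, hinv, hFz, hFan, hkz, hUz, hliz⟩ := hz
  intro i
  rw [trunc_hasFDerivAt f K ξ hfz hKξ]
  set z := K ξ with hzdef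
  set η := ξ - z with hη
  have hηT : η ∈ T := by
    have h1 := T.neg_mem (hKT ξ)
    rwa [neg_sub] at h1
  have hdec : A i ξ = A i z + A i η := by
    rw [hη, map_sub]
    abel
  -- the tangent part
  have hsym : ∀ u v : E, fderiv ℂ (fderiv ℂ f) z u v = fderiv ℂ (fderiv ℂ f) z v u := by
    have h1 : IsSymmSndFDerivAt ℂ f z := by
      apply ContDiffAt.isSymmSndFDerivAt (n := 2) (hfz.contDiffAt)
      simp
    intro u v
    exact h1 u v
  have h2 : fderiv ℂ f z (A i η) + fderiv ℂ (fderiv ℂ f) z η (A i z) = 0 := by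
    apply inv_second f z (A i) hfz
    filter_upwards [hinv] with y hy
    exact hy i
  have h0 : fderiv ℂ f z (A i z) = 0 := hinv.self_of_nhds i
  have hdecT : fderiv ℂ K ξ (A i ξ) - A i ξ ∈ T := by
    have hd : HasFDerivAt (fun x => K x - x) (fderiv ℂ K ξ - ContinuousLinearMap.id ℂ E) ξ :=
      hKξ.differentiableAt.hasFDerivAt.sub (hasFDerivAt_id ξ)
    have hd2 : HasDerivAt (fun s : ℂ => K (ξ + s • A i ξ) - (ξ + s • A i ξ))
        ((fderiv ℂ K ξ - ContinuousLinearMap.id ℂ E) ((1 : ℂ) • A i ξ)) 0 := by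
      have hz0 : ξ + (0 : ℂ) • A i ξ = ξ := by rw [zero_smul, add_zero]
      have hl : HasDerivAt (fun s : ℂ => ξ + s • A i ξ) ((1 : ℂ) • A i ξ) 0 :=
        ((hasDerivAt_id (0 : ℂ)).smul_const (A i ξ)).const_add ξ
      have hd' : HasFDerivAt (fun x => K x - x) (fderiv ℂ K ξ - ContinuousLinearMap.id ℂ E)
          (ξ + (0 : ℂ) • A i ξ) := by
        rw [hz0]
        exact hd
      exact hd'.comp_hasDerivAt (0 : ℂ) hl
    have hcl : IsClosed (T : Set E) := T.closed_of_finiteDimensional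
    have hmem : ((fderiv ℂ K ξ - ContinuousLinearMap.id ℂ E) ((1 : ℂ) • A i ξ)) ∈ T := by
      have hsl := hd2.tendsto_slope_zero
      refine hcl.mem_of_tendsto hsl (Filter.Eventually.of_forall fun s => ?_)
      apply T.smul_mem
      apply T.sub_mem
      · exact hKT _
      · exact hKT _
    simpa using hmem
  set δ := fderiv ℂ K ξ (A i ξ) - A i z with hδ
  have hδT : δ ∈ T := by
    have h1 : δ = (fderiv ℂ K ξ (A i ξ) - A i ξ) + A i η := by
      rw [hδ, hdec]
      abel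
    rw [h1]
    exact T.add_mem hdecT (hAT i η hηT)
  have hδF : ∀ j, fderiv ℂ (F j) z δ = 0 := by
    intro j
    have h1 : HasFDerivAt (fun x => F j (K x)) ((fderiv ℂ (F j) z).comp (fderiv ℂ K ξ)) ξ :=
      (hFan j).differentiableAt.hasFDerivAt.comp ξ hKξ.differentiableAt.hasFDerivAt
    have h2 : HasFDerivAt (fun x => F j (K x)) (0 : E →L[ℂ] ℂ) ξ := by
      refine (hasFDerivAt_const (F j a) ξ).congr_of_eventuallyEq ?_
      filter_upwards [hFKξ] with x hx
      exact hx j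
    have h3 := congrArg (fun L : E →L[ℂ] ℂ => L (A i ξ)) (h1.unique h2)
    simp only [ContinuousLinearMap.comp_apply, zero_apply] at h3
    rw [hδ, map_sub, h3, hFz j i, sub_zero]
  have hδN : δ ∈ NN A z := by
    have hN : (⟨δ, hδT⟩ : T) ∈ Submodule.comap T.subtype (NN A z ⊓ T) := by
      apply mem_of_kill
        (fun j => ((fderiv ℂ (F j) z : E →ₗ[ℂ] ℂ) ∘ₗ T.subtype : T →ₗ[ℂ] ℂ)) _ hliz
      · intro j v hv
        have hv' : (v : E) ∈ NN A z := hv.1
        exact kill_NN A z (fderiv ℂ (F j) z) (hFz j) v hv'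
      · rw [Fintype.card_fin]
        have : finrank ℂ (Submodule.comap T.subtype (NN A z ⊓ T)) = k := by
          rw [← hkz]
          exact (Submodule.comapSubtypeEquivOfLe (inf_le_right)).finrank_eq
        rw [this, hqk]
      · intro j
        exact hδF j
    exact hN.1
  have h3 : fderiv ℂ (fderiv ℂ f) z η δ = 0 := by
    apply second_zero f z η δ hfz
    have hc : Filter.Tendsto (fun s : ℂ => z + s • η) (nhds 0) (nhds z) := by
      have : ContinuousAt (fun s : ℂ => z + s • η) 0 := by fun_prop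
      simpa [ContinuousAt] using this
    filter_upwards [hc.eventually hinv, hc.eventually hUz] with s hs hsU
    have hzU : z ∈ U := hUz.self_of_nhds
    have hNeq : NN A (z + s • η) ⊓ T = NN A z ⊓ T := by
      apply hUT _ hsU _ hzU
      rw [add_sub_cancel_left]
      exact T.smul_mem s hηT
    have hδ' : δ ∈ NN A (z + s • η) ⊓ T := by
      rw [hNeq]
      exact ⟨hδN, hδT⟩
    exact kill_NN A _ (fderiv ℂ f (z + s • η)) hs δ hδ'.1
  -- conclusion
  have h4 : fderiv ℂ K ξ (A i ξ) = δ + A i z := by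
    rw [hδ]
    abel
  rw [h4, hdec, map_add, h0, zero_add, map_add, add_apply, hsym δ η, h3, zero_add,
    hsym (A i z) η]
  exact h2

end TRUaux

open TRUaux in
/-- TRU: truncation of local invariants to functions which are affine along `T`. -/
theorem t_tru (h : TRKStmt) : TRUStmt := by
  intro E κ _ _ _ _ A a m k r T F hm hrm hF hFli hAT hk hU
  -- the common kernel
  have hma : finrank ℂ (NN A a) = m := hm.self_of_nhds
  have hka : finrank ℂ (NN A a ⊓ T : Submodule ℂ E) = k := hk.self_of_nhds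
  have hFli' : LinearIndependent ℂ (fun j => (fderiv ℂ (F j) a : E →ₗ[ℂ] ℂ)) :=
    (li_coe _).1 hFli
  have hker : ∀ v : T, v ∈ Submodule.comap T.subtype (NN A a ⊓ T) ↔
      ∀ j, ((fderiv ℂ (F j) a : E →ₗ[ℂ] ℂ) ∘ₗ T.subtype : T →ₗ[ℂ] ℂ) v = 0 := by
    intro v
    constructor
    · intro hv j
      exact kill_NN A a (fderiv ℂ (F j) a) (fun i => (hF j).2.self_of_nhds i) v hv.1
    · intro hv
      refine ⟨?_, v.2⟩
      apply mem_of_kill (fun j => (fderiv ℂ (F j) a : E →ₗ[ℂ] ℂ)) _ hFli'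
      · intro j w hw
        exact kill_NN A a (fderiv ℂ (F j) a) (fun i => (hF j).2.self_of_nhds i) w hw
      · rw [Fintype.card_fin, hma, hrm]
      · intro j
        exact hv j
  obtain ⟨q, s, hsli, hq⟩ := sub_family
    (fun j => ((fderiv ℂ (F j) a : E →ₗ[ℂ] ℂ) ∘ₗ T.subtype : T →ₗ[ℂ] ℂ)) _ hker
  have hqk : q + k = finrank ℂ T := by
    rw [← hq, ← hka]
    congr 1
    exact (Submodule.comapSubtypeEquivOfLe (inf_le_right)).finrank_eq.symm
  obtain ⟨K, hK, hKa, hKinv, hKT, hFK⟩ := h E a q T (fun j => F (s j)) (fun j => (hF (s j)).1) hsli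
  have hder : ∀ j, fderiv ℂ (trunc (F j) K) a = fderiv ℂ (F j) a := by
    intro j
    ext v
    rw [trunc_hasFDerivAt (F j) K a (by rw [hKa]; exact (hF j).1) hK v, hKa, sub_self, map_zero,
      add_zero]
  refine ⟨fun j => trunc (F j) K, ?_, ?_, ?_⟩
  · intro j
    refine ⟨trunc_analytic (F j) K a (by rw [hKa]; exact (hF j).1) hK, ?_⟩
    exact trunc_inv A a k q T (fun j => F (s j)) K (F j) (fun j => hF (s j)) hsli hqk hAT hk hU
      hK hKa hKT hFK (hF j)
  · have : (fun j => fderiv ℂ (trunc (F j) K) a) = fun j => fderiv ℂ (F j) a := funext hder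
    rw [this]
    exact hFli
  · intro j
    refine Filter.Eventually.of_forall fun ξ => ⟨(fderiv ℂ (F j) (K ξ) : E →ₗ[ℂ] ℂ) ∘ₗ T.subtype,
      fun η => ?_⟩
    simp only [trunc, hKinv ξ η η.2, LinearMap.comp_apply, Submodule.subtype_apply,
      ContinuousLinearMap.coe_coe]
    rw [add_sub_right_comm, map_add]
    ring

end Pool.MFQ
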